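import Mathlib

set_option autoImplicit false

namespace Pool.Agent.Results.MP_eb267f_nt.PowerOfThree

/-- The sequence of the problem: `U 0 = 1`, `U 1 = 3`, `U (n + 2) = 4 U (n + 1) - U n`. -/
def U : ℕ → ℤ
  | 0 => 1
  | 1 => 3
  | (n + 2) => 4 * U (n + 1) - U n

/-- A Whiteman pair: primes `p`, `q` with `q = 3 p + 2` and `p q - 1 = 4 x ^ 2`, `x` odd. -/
def IsWhitemanPair (p q : ℕ) : Prop :=
  p.Prime ∧ q.Prime ∧ q = 3 * p + 2 ∧ ∃ x : ℕ, Odd x ∧ p * q - 1 = 4 * x ^ 2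

/-- Companion sequence `W 0 = 1`, `W 1 = 5`, `W (n + 2) = 4 W (n + 1) - W n`. -/
def W : ℕ → ℤ
  | 0 => 1
  | 1 => 5
  | (n + 2) => 4 * W (n + 1) - W n

lemma step (n : ℕ) : U (n + 1) = 2 * U n + W n ∧ W (n + 1) = 2 * W n + 3 * U n := by
  induction n using Nat.strong_induction_on with
  | _ n ih =>
    match n with
    | 0 => simp [U, W]
    | 1 => simp [U, W]
    | (n + 2) =>
      obtain ⟨a1, b1⟩ := ih (n + 1) (by omega)
      obtain ⟨a0, b0⟩ := ih n (by omega)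
      have hU : U (n + 2 + 1) = 4 * U (n + 2) - U (n + 1) := rfl
      have hW : W (n + 2 + 1) = 4 * W (n + 2) - W (n + 1) := rfl
      have hU2 : U (n + 2) = 4 * U (n + 1) - U n := rfl
      have hW2 : W (n + 2) = 4 * W (n + 1) - W n := rfl
      rw [hU, hW]
      constructor <;> linarith

lemma pos_pell (n : ℕ) : 0 < U n ∧ 0 < W n ∧ W n ^ 2 = 3 * U n ^ 2 - 2 := by
  induction n with
  | zero => simp [U, W]
  | succ n ih =>
    obtain ⟨h1, h2, h3⟩ := ih
    obtain ⟨a, b⟩ := step n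
    rw [a, b]
    refine ⟨by linarith, by linarith, by nlinarith⟩

lemma odd_UW (n : ℕ) : Odd (U n) ∧ Odd (W n) := by
  induction n with
  | zero => exact ⟨by decide, by decide⟩
  | succ n ih =>
    obtain ⟨h1, h2⟩ := ih
    obtain ⟨a, b⟩ := step n
    rw [a, b]
    refine ⟨(even_two_mul _).add_odd h2, (even_two_mul _).add_odd ?_⟩
    exact Odd.mul (by decide) h1

/-- All positive solutions of `w ^ 2 = 3 u ^ 2 - 2` are the `(W n, U n)`. -/
lemma descent : ∀ (k : ℕ) (u w : ℤ), u.toNat ≤ k → 0 < u → 0 < w → w ^ 2 = 3 * u ^ 2 - 2 →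
    ∃ n, u = U n ∧ w = W n := by
  intro k
  induction k with
  | zero =>
    intro u w h1 h2
    omega
  | succ k ih =>
    intro u w h1 hu hw h
    by_cases hu1 : u = 1
    · subst hu1
      refine ⟨0, rfl, ?_⟩
      have : w ^ 2 = 1 := by rw [h]; norm_num
      have hw' : w = 1 := by nlinarith
      rw [hw']; rfl
    · have hu2 : 2 ≤ u := by omega
      have e1 : u < w := by nlinarith
      have e2 : w < 2 * u := by nlinarith
      have e3 : 0 < 2 * w - 3 * u := by nlinarith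
      obtain ⟨n, hn1, hn2⟩ := ih (2 * u - w) (2 * w - 3 * u) (by omega) (by linarith) e3
        (by nlinarith)
      obtain ⟨a, b⟩ := step n
      refine ⟨n + 1, ?_, ?_⟩
      · rw [a, ← hn1, ← hn2]; ring
      · rw [b, ← hn1, ← hn2]; ring

open Polynomial in
/-- `V k = β ^ k + β ^ (-k)` with `β = 2 + √3`. -/
noncomputable def V (k : ℤ) : ℤ := (Chebyshev.C ℤ k).eval 4

open Polynomial in
lemma V_add_two (k : ℤ) : V (k + 2) = 4 * V (k + 1) - V k := by
  unfold V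
  rw [Chebyshev.C_add_two]
  simp

lemma V_zero : V 0 = 2 := by simp [V]

lemma V_one : V 1 = 4 := by simp [V]

lemma V_odd (n : ℕ) : V (2 * n + 1) = 6 * U n ^ 2 - 2 ∧
    V (2 * n + 2) = 2 * (6 * U n ^ 2 - 2) + 6 * U n * W n := by
  induction n with
  | zero =>
    have h2 := V_add_two 0
    rw [V_zero] at h2
    simp only [zero_add] at h2
    rw [V_one] at h2
    constructor
    · simp [V_one, U]
    · simp [h2, U, W]
  | succ n ih =>
    obtain ⟨h1, h2⟩ := ih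
    obtain ⟨_, _, hp⟩ := pos_pell n
    obtain ⟨a, b⟩ := step n
    have e1 : V (2 * ((n + 1 : ℕ) : ℤ) + 1) = 4 * V (2 * n + 2) - V (2 * n + 1) := by
      have := V_add_two (2 * n + 1)
      rw [show (2 * ((n + 1 : ℕ) : ℤ) + 1) = 2 * n + 1 + 2 by push_cast; ring, this]
      ring_nf
    have e2 : V (2 * ((n + 1 : ℕ) : ℤ) + 2) = 4 * V (2 * ((n + 1 : ℕ) : ℤ) + 1) - V (2 * n + 2) := by
      have := V_add_two (2 * n + 2)
      rw [show (2 * ((n + 1 : ℕ) : ℤ) + 2) = 2 * n + 2 + 2 by push_cast; ring, this]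
      congr 3
    have c1 : V (2 * ((n + 1 : ℕ) : ℤ) + 1) = 6 * U (n + 1) ^ 2 - 2 := by
      rw [e1, h1, h2, a]
      nlinarith
    refine ⟨c1, ?_⟩
    rw [e2, c1, h2, a, b]
    nlinarith

open Polynomial in
lemma C_eval_neg_one (k : ℕ) : (Chebyshev.C ℤ (3 * k)).eval (-1) = 2 ∧
    (Chebyshev.C ℤ (3 * k + 1)).eval (-1) = -1 ∧ (Chebyshev.C ℤ (3 * k + 2)).eval (-1) = -1 := by
  have rec2 : ∀ n : ℤ, (Chebyshev.C ℤ (n + 2)).eval (-1) =
      - (Chebyshev.C ℤ (n + 1)).eval (-1) - (Chebyshev.C ℤ n).eval (-1) := by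
    intro n
    rw [Chebyshev.C_add_two]
    simp
  induction k with
  | zero =>
    have h2 := rec2 0
    simp at h2
    simp [h2]
  | succ k ih =>
    obtain ⟨h0, h1, h2⟩ := ih
    have r0 := rec2 (3 * k + 1)
    have r1 := rec2 (3 * k + 2)
    have r2 := rec2 (3 * k + 3)
    rw [show (3 * (k : ℤ) + 1 + 2) = 3 * k + 3 by ring,
      show (3 * (k : ℤ) + 1 + 1) = 3 * k + 2 by ring] at r0
    rw [show (3 * (k : ℤ) + 2 + 2) = 3 * k + 4 by ring,
      show (3 * (k : ℤ) + 2 + 1) = 3 * k + 3 by ring] at r1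
    rw [show (3 * (k : ℤ) + 3 + 2) = 3 * k + 5 by ring,
      show (3 * (k : ℤ) + 3 + 1) = 3 * k + 4 by ring] at r2
    rw [show (3 * ((k + 1 : ℕ) : ℤ)) = 3 * k + 3 by push_cast; ring,
      show (3 * (k : ℤ) + 3 + 1) = 3 * k + 4 by ring,
      show (3 * (k : ℤ) + 3 + 2) = 3 * k + 5 by ring]
    refine ⟨?_, ?_, ?_⟩ <;> linarith

open Polynomial in
lemma C_eval_neg_one' (r : ℕ) (hr : ¬ 3 ∣ r) : (Chebyshev.C ℤ r).eval (-1) = -1 := by
  obtain ⟨h0, h1, h2⟩ := C_eval_neg_one (r / 3)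
  have h := Nat.div_add_mod r 3
  have hlt := Nat.mod_lt r (show 3 > 0 by norm_num)
  have hne : r % 3 ≠ 0 := fun h0 => hr (Nat.dvd_of_mod_eq_zero h0)
  rcases (by omega : r % 3 = 1 ∨ r % 3 = 2) with h' | h'
  · have : (r : ℤ) = 3 * ((r / 3 : ℕ) : ℤ) + 1 := by omega
    rw [this]; exact h1
  · have : (r : ℤ) = 3 * ((r / 3 : ℕ) : ℤ) + 2 := by omega
    rw [this]; exact h2

open Polynomial in
lemma V_dvd (r : ℕ) (s : ℤ) (hr : ¬ 3 ∣ r) : V s + 1 ∣ V (r * s) + 1 := by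
  have h1 : V (r * s) = (Chebyshev.C ℤ r).eval (V s) := by
    unfold V
    rw [Chebyshev.C_mul, eval_comp]
  have h2 := sub_dvd_eval_sub (V s) (-1) (Chebyshev.C ℤ r)
  rw [C_eval_neg_one' r hr, ← h1, sub_neg_eq_add, sub_neg_eq_add] at h2
  exact h2

lemma U_strictMono : StrictMono U := by
  apply strictMono_nat_of_lt_succ
  intro n
  obtain ⟨h1, h2, _⟩ := pos_pell n
  rw [(step n).1]
  linarith

/-- If `q = 6 U n ^ 2 - 1` is prime then `2 n + 1` is a power of three. -/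
lemma power_three (n : ℕ) (h : Prime (6 * U n ^ 2 - 1)) : ∃ a : ℕ, 2 * n + 1 = 3 ^ a := by
  obtain ⟨a, m, hm, hn⟩ := Nat.exists_eq_pow_mul_and_not_dvd (n := 2 * n + 1) (by omega) 3 (by norm_num)
  refine ⟨a, ?_⟩
  by_cases hm1 : m = 1
  · rw [hn, hm1, mul_one]
  exfalso
  -- write `3 ^ a = 2 s + 1`
  have hodd : Odd (3 ^ a) := Odd.pow (by decide)
  obtain ⟨s, hs⟩ := hodd
  have hdiv := V_dvd m (2 * s + 1) hm
  have e1 : ((m : ℤ) * (2 * s + 1)) = 2 * n + 1 := by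
    have : m * (2 * s + 1) = 2 * n + 1 := by rw [← hs, hn]; ring
    exact_mod_cast this
  rw [e1, (V_odd n).1, (V_odd s).1] at hdiv
  have e2 : 6 * U s ^ 2 - 2 + 1 ∣ 6 * U n ^ 2 - 1 := by
    have : 6 * U n ^ 2 - 1 = 6 * U n ^ 2 - 2 + 1 := by ring
    rw [this]; exact hdiv
  have hlt : s < n := by
    have h0 : 0 < m := by
      rcases Nat.eq_zero_or_pos m with h | h
      · exact absurd (h ▸ dvd_zero 3) hm
      · exact h
    have h2 : 2 ≤ m := by omega
    have h3 : m * (2 * s + 1) = 2 * n + 1 := by rw [← hs, hn]; ring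
    nlinarith
  have hU : U s < U n := U_strictMono hlt
  obtain ⟨hs0, _, _⟩ := pos_pell s
  have hsq : U s ^ 2 < U n ^ 2 := by nlinarith
  have hirr := h.irreducible
  obtain ⟨c, hc⟩ := e2
  have hge : 5 ≤ 6 * U s ^ 2 - 2 + 1 := by nlinarith
  rcases hirr.isUnit_or_isUnit hc with hu | hu
  · rcases Int.isUnit_iff.1 hu with h | h <;> linarith
  · rcases Int.isUnit_iff.1 hu with h | h
    · rw [h, mul_one] at hc
      linarith
    · rw [h] at hc
      nlinarith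

/-- Whiteman pairs are exactly the pairs `(2 U_n ^ 2 - 1, 6 U_n ^ 2 - 1)` of primes for which
`2 n + 1` is a power of three. -/
theorem result (p q : ℕ) :
    IsWhitemanPair p q ↔
      p.Prime ∧ q.Prime ∧ ∃ a n : ℕ, 1 ≤ a ∧ 2 * n + 1 = 3 ^ a ∧
        (p : ℤ) = 2 * U n ^ 2 - 1 ∧ (q : ℤ) = 6 * U n ^ 2 - 1 := by
  constructor
  · rintro ⟨hp, hq, hqp, x, hx, hpq⟩
    refine ⟨hp, hq, ?_⟩
    have hp1 : 1 < p := hp.one_lt
    have hpodd : p % 2 = 1 := by
      rcases hp.eq_two_or_odd with h | h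
      · exfalso
        subst h
        rw [hqp] at hq
        norm_num at hq
      · exact h
    obtain ⟨k, hk⟩ : ∃ k, p = 2 * k + 1 := ⟨p / 2, by omega⟩
    -- `(k + 1) (3 k + 1) = x ^ 2`
    have hmul : (k + 1) * (3 * k + 1) = x ^ 2 := by
      have h1 : p * q = 4 * x ^ 2 + 1 := by
        have : 1 ≤ p * q := Nat.mul_pos hp.pos hq.pos
        omega
      rw [hqp, hk] at h1
      nlinarith
    have hxodd : Odd (x ^ 2) := hx.pow
    have hkodd : Odd (k + 1) := by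
      rw [← hmul] at hxodd
      exact (Nat.odd_mul.1 hxodd).1
    have hcop : Nat.Coprime (k + 1) (3 * k + 1) := by
      have h1 : Nat.Coprime (k + 1) 2 := hkodd.coprime_two_right
      have h2 : (k + 1) * 3 = (3 * k + 1) + 2 := by ring
      have h3 : Nat.gcd (k + 1) (3 * k + 1) ∣ 2 := by
        have a1 : Nat.gcd (k + 1) (3 * k + 1) ∣ (3 * k + 1) + 2 := by
          rw [← h2]; exact Dvd.dvd.mul_right (Nat.gcd_dvd_left _ _) _
        exact (Nat.dvd_add_right (Nat.gcd_dvd_right _ _)).1 a1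
      have h4 : Nat.gcd (k + 1) (3 * k + 1) ∣ Nat.gcd (k + 1) 2 :=
        Nat.dvd_gcd (Nat.gcd_dvd_left _ _) h3
      rw [h1] at h4
      exact Nat.dvd_one.1 h4
    have hZ : ((k + 1 : ℕ) : ℤ) * ((3 * k + 1 : ℕ) : ℤ) = (x : ℤ) ^ 2 := by exact_mod_cast hmul
    have hZ' : ((3 * k + 1 : ℕ) : ℤ) * ((k + 1 : ℕ) : ℤ) = (x : ℤ) ^ 2 := by
      rw [mul_comm]; exact hZ
    have hg1 : IsCoprime ((k + 1 : ℕ) : ℤ) ((3 * k + 1 : ℕ) : ℤ) := Nat.isCoprime_iff_coprime.2 hcop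
    obtain ⟨u, hu⟩ := Int.sq_of_isCoprime hg1 hZ
    obtain ⟨w, hw⟩ := Int.sq_of_isCoprime hg1.symm hZ'
    have hu' : ((k : ℤ) + 1) = u ^ 2 := by
      rcases hu with h | h
      · rw [← h]; push_cast; ring
      · have : (0 : ℤ) < ((k + 1 : ℕ) : ℤ) := by positivity
        nlinarith [sq_nonneg u]
    have hw' : (3 * (k : ℤ) + 1) = w ^ 2 := by
      rcases hw with h | h
      · rw [← h]; push_cast; ring
      · have : (0 : ℤ) < ((3 * k + 1 : ℕ) : ℤ) := by positivity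
        nlinarith [sq_nonneg w]
    have hu0 : 0 < |u| := by
      apply abs_pos.2
      intro h
      rw [h] at hu'
      simp at hu'
      have : (0 : ℤ) ≤ k := by positivity
      linarith
    have hw0 : 0 < |w| := by
      apply abs_pos.2
      intro h
      rw [h] at hw'
      simp at hw'
      have : (0 : ℤ) ≤ k := by positivity
      linarith
    obtain ⟨n, hn, _⟩ := descent (|u|.toNat) |u| |w| le_rfl hu0 hw0
      (by rw [sq_abs, sq_abs, ← hu', ← hw']; ring)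
    have hpU : (p : ℤ) = 2 * U n ^ 2 - 1 := by
      rw [← hn, sq_abs, ← hu', hk]; push_cast; ring
    have hqU : (q : ℤ) = 6 * U n ^ 2 - 1 := by
      have : (q : ℤ) = 3 * p + 2 := by rw [hqp]; push_cast; ring
      rw [this, hpU]; ring
    have hqprime : Prime (6 * U n ^ 2 - 1) := by
      rw [← hqU]; exact Nat.prime_iff_prime_int.1 hq
    obtain ⟨a, ha⟩ := power_three n hqprime
    refine ⟨a, n, ?_, ha, hpU, hqU⟩
    rcases Nat.eq_zero_or_pos a with h | h
    · exfalso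
      rw [h, pow_zero] at ha
      have hn0 : n = 0 := by omega
      rw [hn0] at hpU
      simp [U] at hpU
      have : p = 1 := by exact_mod_cast hpU
      omega
    · exact h
  · rintro ⟨hp, hq, a, n, _, _, hpU, hqU⟩
    obtain ⟨h1, h2, h3⟩ := pos_pell n
    obtain ⟨o1, o2⟩ := odd_UW n
    refine ⟨hp, hq, ?_, (U n * W n).natAbs, ?_, ?_⟩
    · have : (q : ℤ) = 3 * p + 2 := by rw [hpU, hqU]; ring
      exact_mod_cast this
    · exact Int.natAbs_odd.2 (o1.mul o2)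
    · have h4 : ((p * q : ℕ) : ℤ) = 4 * (((U n * W n).natAbs : ℕ) : ℤ) ^ 2 + 1 := by
        rw [Int.natCast_natAbs, sq_abs, Nat.cast_mul, hpU, hqU]
        have : (U n * W n) ^ 2 = U n ^ 2 * (3 * U n ^ 2 - 2) := by
          rw [mul_pow, h3]
        rw [this]; ring
      have h5 : p * q = 4 * (U n * W n).natAbs ^ 2 + 1 := by exact_mod_cast h4
      omega

end Pool.Agent.Results.MP_eb267f_nt.PowerOfThree
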